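import Pool.Agent.Q97.UM.Base8

set_option autoImplicit false

/-!
# MP_6a632e_nt: the size of zeta on the critical line, relative to every Dirichlet polynomial

Unconditionally, for every `m` there are `θ, δ₀ > 0` such that for `0 < δ ≤ δ₀`, large `T`, all `N ≤ T ^ θ` and ALL complex numbers
`b_1, …, b_N`, with `B(t) = ∑ b_n n^(-1/2 - it)`: the integral over `[T, 2T]` of the `m`-th power of
`|log |ζ(1/2 + it)| - log |∏_{p ≤ T^δ} (1 - p^(-1/2 - it))^(-1)||` against `|B(t)|²` is at most `C` times the integral of `|B(t)|²`.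
-/

namespace Pool.Agent.Results.MP_6a632e_nt.EulerProductForEveryPolynomial

open Filter Topology MeasureTheory Complex

noncomputable section

/-- the Dirichlet polynomial with coefficients `b_1, …, b_N` on the critical line -/
def B (N : ℕ) (b : ℕ → ℂ) (t : ℝ) : ℂ := ∑ n ∈ Finset.Icc 1 N, b n * (n : ℂ) ^ (-(1 / 2 + t * I))

/-- the Euler product over the primes up to `X` on the critical line -/
def eulerProduct (X t : ℝ) : ℂ := ∏ p ∈ (Finset.Icc 1 ⌊X⌋₊).filter Nat.Prime, (1 - (p : ℂ) ^ (-(1 / 2 + t * I)))⁻¹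

/-- difference of the logarithms of the absolute values of zeta and of the Euler product -/
def D (X t : ℝ) : ℝ := Real.log ‖riemannZeta (1 / 2 + t * I)‖ - Real.log ‖eulerProduct X t‖

lemma norm_prime_cpow {p : ℕ} (hp : p.Prime) (t : ℝ) : ‖(p : ℂ) ^ (-(1 / 2 + t * I))‖ < 1 := by
  rw [Complex.norm_natCast_cpow_of_pos hp.pos]
  have h1 : (-(1 / 2 + t * I) : ℂ).re = -(1 / 2) := by simp
  rw [h1]
  have h2 : (1 : ℝ) < p := by exact_mod_cast hp.one_lt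
  exact Real.rpow_lt_one_of_one_lt_of_neg h2 (by norm_num)

lemma log_euler (X t : ℝ) : Real.log ‖eulerProduct X t‖ = Pool.Agent.Q97.UM.EP ⌊X⌋₊ t := by
  unfold eulerProduct Pool.Agent.Q97.UM.EP
  rw [norm_prod, Real.log_prod, ← Finset.sum_neg_distrib]
  · apply Finset.sum_congr rfl
    intro p _
    rw [norm_inv, Real.log_inv]
  · intro p hp
    have hp' := (Finset.mem_filter.1 hp).2
    have h1 := norm_prime_cpow hp' t
    rw [norm_ne_zero_iff]
    apply inv_ne_zero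
    intro h0
    rw [sub_eq_zero] at h0
    rw [← h0, norm_one] at h1
    exact lt_irrefl _ h1

/-- **the size of zeta on the critical line, relative to every Dirichlet polynomial** -/
theorem result : ∀ m : ℕ, ∃ θ δ₀ : ℝ, 0 < θ ∧ 0 < δ₀ ∧ ∀ δ : ℝ, 0 < δ → δ ≤ δ₀ → ∃ C T₀ : ℝ, ∀ T : ℝ, T₀ ≤ T →
    ∀ N : ℕ, (N : ℝ) ≤ T ^ θ → ∀ b : ℕ → ℂ,
      IntervalIntegrable (fun t => |D (T ^ δ) t| ^ m * ‖B N b t‖ ^ 2) volume T (2 * T) ∧
      ∫ t in T..(2 * T), |D (T ^ δ) t| ^ m * ‖B N b t‖ ^ 2 ≤ C * ∫ t in T..(2 * T), ‖B N b t‖ ^ 2 := by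
  intro m
  obtain ⟨θ, δ₀, hθ, hδ₀, h⟩ := Pool.Agent.Q97.UM.b_THP m
  refine ⟨min θ (1 / 4), δ₀, by positivity, hδ₀, ?_⟩
  intro δ hδ hδ'
  obtain ⟨C, hC, h2⟩ := h δ hδ hδ'
  obtain ⟨T₀, hT₀⟩ := eventually_atTop.1 (h2.and (eventually_ge_atTop 16))
  refine ⟨2 * C, T₀, ?_⟩
  intro T hT N hN b
  obtain ⟨h3, h4⟩ := hT₀ T hT
  have hN1 : (N : ℝ) ≤ T ^ θ := hN.trans (Real.rpow_le_rpow_of_exponent_le (by linarith) (min_le_left _ _))
  have hN2 : (N : ℝ) ≤ T ^ (1 / 4 : ℝ) := hN.trans (Real.rpow_le_rpow_of_exponent_le (by linarith) (min_le_right _ _))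
  obtain ⟨h5, h6⟩ := h3 N hN1 b
  have hfun : (fun t => |D (T ^ δ) t| ^ m * ‖B N b t‖ ^ 2) = (fun t => |Real.log ‖Pool.Agent.Q97.UM.zt t‖ -
      Pool.Agent.Q97.UM.EP ⌊T ^ δ⌋₊ t| ^ m * ‖Pool.Agent.Q97.UM.dp N b t‖ ^ 2) := by
    funext t
    unfold D
    rw [log_euler]
    rfl
  have hB : (fun t => ‖B N b t‖ ^ 2) = (fun t => ‖Pool.Agent.Q97.UM.dp N b t‖ ^ 2) := rfl
  rw [hfun, hB]
  have hmv := (Pool.Agent.Q84.UM.t_MVL T h4 N hN2 b).1
  have hsub : Set.uIcc T (2 * T) ⊆ Set.uIcc (T / 2) (4 * T) := by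
    rw [Set.uIcc_of_le (by linarith), Set.uIcc_of_le (by linarith)]
    exact Set.Icc_subset_Icc (by linarith) (by linarith)
  refine ⟨h5.mono_set hsub, ?_⟩
  calc _ ≤ ∫ t in (T / 2)..(4 * T), |Real.log ‖Pool.Agent.Q97.UM.zt t‖ - Pool.Agent.Q97.UM.EP ⌊T ^ δ⌋₊ t| ^ m *
        ‖Pool.Agent.Q97.UM.dp N b t‖ ^ 2 := by
        apply intervalIntegral.integral_mono_interval (by linarith) (by linarith) (by linarith) _ h5
        filter_upwards with t
        positivity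
    _ ≤ C * T * Pool.Agent.Q97.UM.N2 N b := h6
    _ ≤ 2 * C * ∫ t in T..(2 * T), ‖Pool.Agent.Q97.UM.dp N b t‖ ^ 2 := by
        have : C * (T / 2 * Pool.Agent.Q97.UM.N2 N b) ≤ C * ∫ t in T..(2 * T), ‖Pool.Agent.Q97.UM.dp N b t‖ ^ 2 :=
          mul_le_mul_of_nonneg_left hmv hC
        linarith

end

end Pool.Agent.Results.MP_6a632e_nt.EulerProductForEveryPolynomial
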