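import Pool.Agent.Q97.RD.De4

/-!
# Joint moments of the derivatives of zeta have the order predicted by scaling

Let `β_1, ..., β_n > 0` be real, `β` their sum, `j_1, ..., j_n ≥ 0` integers and `A ≥ 0`. There are
`0 < c ≤ C` such that for all large `T`, all Gaussian windows of width `1 ≤ U ≤ T / log T` at `T` and
all complex shifts `w_1, ..., w_n` with `|w_i| ≤ A / log T` the joint moment
`∫ ∏ |ζ^(j_i)(1/2 + it + w_i)|^(β_i) exp(-((t-T)/U)²) dt` lies between `c` and `C` times
`(log T)^(∑ j_i β_i) ∫ |ζ(1/2 + it)|^β exp(-((t-T)/U)²) dt`.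

The upper bound is Cauchy's estimate and a bound for the maximal function of zeta over discs of
radius `O(1/log T)`. For the lower bound one shows that in a typical interval of length `a/log T` no
derivative is small outside a small set: otherwise zeta would be close to a polynomial of
degree less than `j` there (inequality of Remez type and Taylor's formula), which contradicts
`|ζ'| ≥ (1/3) log T |ζ|` on the critical line when `a` is large (Markov's inequality).
-/

set_option autoImplicit false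

open MeasureTheory Filter Set
open scoped ENNReal

namespace Pool.Agent.Results.MP_6a632e_nt.JointMomentsOfDerivatives

noncomputable section

/-- the point `1/2 + it` -/
def pt (t : ℝ) : ℂ := 1 / 2 + t * Complex.I

/-- the Gaussian window of width `U` at `T` -/
def window (T U t : ℝ) : ℝ := Real.exp (-((t - T) / U) ^ 2)

/-- the moment of order `β` -/
def moment (β T U : ℝ) : ℝ := ∫ t : ℝ, ‖riemannZeta (pt t)‖ ^ β * window T U t

/-- the product of the powers of the derivatives at the shifted points times the window -/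
def jointDens {n : ℕ} (j : Fin n → ℕ) (β : Fin n → ℝ) (w : Fin n → ℂ) (T U t : ℝ) : ℝ :=
  (∏ i, ‖iteratedDeriv (j i) riemannZeta (pt t + w i)‖ ^ β i) * window T U t

/-- the joint moment of the derivatives of orders `j_i` with exponents `β_i` and shifts `w_i` -/
def joint {n : ℕ} (j : Fin n → ℕ) (β : Fin n → ℝ) (w : Fin n → ℂ) (T U : ℝ) : ℝ :=
  ∫ t : ℝ, jointDens j β w T U t

theorem pt_eq : pt = Q97.RD.pp := by
  funext t
  simp [pt, Q97.RD.pp]

theorem moment_eq (β T U : ℝ) : moment β T U = Q97.RB.MB β T U (1 / 2) := by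
  unfold moment Q97.RB.MB
  rw [pt_eq]
  rfl

theorem jointDens_nonneg {n : ℕ} (j : Fin n → ℕ) (β : Fin n → ℝ) (w : Fin n → ℂ) (T U t : ℝ) :
    0 ≤ jointDens j β w T U t := by
  unfold jointDens window
  positivity

theorem jointDens_eq {n : ℕ} (j : Fin n → ℕ) (β : Fin n → ℝ) (w : Fin n → ℂ) (T U : ℝ) :
    jointDens j β w T U = Q97.RD.jd j β w T U := by
  funext t
  unfold jointDens Q97.RD.jd
  rw [pt_eq]
  rfl

theorem result {n : ℕ} (hn : 0 < n) (j : Fin n → ℕ) (β : Fin n → ℝ) (hβ : ∀ i, 0 < β i) (A : ℝ)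
    (hA : 0 ≤ A) :
    ∃ c C : ℝ, 0 < c ∧ 0 < C ∧ ∀ᶠ T : ℝ in atTop, ∀ U : ℝ, 1 ≤ U → U ≤ T / Real.log T →
      0 < moment (∑ i, β i) T U ∧
      ∀ w : Fin n → ℂ, (∀ i, ‖w i‖ ≤ A / Real.log T) →
        Integrable (jointDens j β w T U) ∧
        c * Real.log T ^ (∑ i, j i * β i) * moment (∑ i, β i) T U ≤ joint j β w T U ∧
        joint j β w T U ≤ C * Real.log T ^ (∑ i, j i * β i) * moment (∑ i, β i) T U := by
  have : Nonempty (Fin n) := ⟨⟨0, hn⟩⟩
  have hb0 : 0 < ∑ i, β i := Finset.sum_pos (fun i _ => hβ i) Finset.univ_nonempty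
  obtain ⟨c, hc, hlow⟩ := Q97.RD.der_low hn j hβ hA
  obtain ⟨C, hC, hup⟩ := Q97.RD.der_up hn j hβ hA
  refine ⟨c, C, hc, hC, ?_⟩
  filter_upwards [hlow, hup, Q97.RB.tilted hb0 one_pos one_pos, eventually_ge_atTop 3,
    (Q97.MM.log_div_tendsto A).eventually (gt_mem_nhds (show (0 : ℝ) < 1 / 4 by norm_num))]
    with T h1 h2 h3 hT h4 U hU1 hU2
  have h : Q97.MM.Adm T U := ⟨hT, hU1, hU2⟩
  have hL := h.log
  rw [abs_of_nonneg (by positivity)] at h4
  rw [moment_eq]
  have hM := (h3 U h).1
  refine ⟨hM, fun w hw => ?_⟩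
  have hcont : Continuous (jointDens j β w T U) := by
    rw [jointDens_eq]
    exact Q97.RD.jd_cont j hβ (fun i => lt_of_le_of_lt (hw i) h4) T U
  have k1 := h1 U h w hw
  have k2 := h2 U h w hw
  rw [← jointDens_eq] at k1 k2
  have hint : Integrable (jointDens j β w T U) := by
    refine ⟨hcont.aestronglyMeasurable, ?_⟩
    rw [hasFiniteIntegral_iff_ofReal (Eventually.of_forall (jointDens_nonneg j β w T U))]
    exact lt_of_le_of_lt k2 ENNReal.ofReal_lt_top
  have e2 : ∫⁻ x, ENNReal.ofReal (jointDens j β w T U x) = ENNReal.ofReal (joint j β w T U) :=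
    (ofReal_integral_eq_lintegral_ofReal hint
      (Eventually.of_forall (jointDens_nonneg j β w T U))).symm
  rw [e2] at k1 k2
  have h0 : 0 ≤ joint j β w T U := integral_nonneg (jointDens_nonneg j β w T U)
  exact ⟨hint, (ENNReal.ofReal_le_ofReal_iff h0).mp k1,
    (ENNReal.ofReal_le_ofReal_iff (by positivity)).mp k2⟩

end

end Pool.Agent.Results.MP_6a632e_nt.JointMomentsOfDerivatives
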