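import Pool.Agent.Q273.LU.A6
import Pool.Agent.TH806.Fin

set_option autoImplicit false

/-!
# The law of `log |ζ|` under the weight `|ζ| ^ β`, on and near the critical line

Near the critical line, for every weight `0 < β ≤ 4`. Let `δ(T)` tend to `0` with `δ(T) log T` tending to
infinity, and put `Λ = log (1 / (2 δ(T)))`. At a point of the line of real part `1/2 + δ(T)` chosen at random with
density proportional to `|ζ| ^ β`, the number `log |ζ|` is asymptotically normal with mean `(β / 2) Λ` and variance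
`Λ / 2`; for `β < 4` all its moments converge; the exponent of the weight may depend on `T`. It follows that the
uniform measure of the points with `log |ζ| ≥ (β / 2) Λ + y √(Λ / 2)` is
`exp (-(β ^ 2 / 4) Λ - β y √(Λ / 2) + o(√Λ))`, and which values of `|ζ|` make up the moments of all real orders,
below (or above) that size.

On the critical line, for the weights `β` close to `2`: the same law with `Λ = log log T`.
-/

namespace Pool.Agent.Results.MP_6a632e_nt.WeightedLawNearLine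

open MeasureTheory ProbabilityTheory Filter Topology Set

/-- the randomly shifted zeta function `ζ(σ + ix + iuT)`; for `σ = 1/2` and `u` uniform in `[0, 1]` zeta at a random point of the critical line -/
noncomputable def mu (x σ T u : ℝ) : ℂ := riemannZeta (σ + x * Complex.I + (u * T) * Complex.I)

/-- `Λ = log (1 / (2 δ))` -/
noncomputable def Lam (δ : ℝ) : ℝ := Real.log (1 / (2 * δ))

/-- the arithmetic factor `a_κ = ∏_p (1-1/p)^{κ²} Σ_m (κ(κ+1)...(κ+m-1)/m!)² p^{-m}` -/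
noncomputable def aa (κ : ℝ) : ℝ :=
  ∏' p : Nat.Primes, ((1 - 1 / (p : ℝ)) ^ (κ ^ 2) *
    ∑' m : ℕ, (∏ i ∈ Finset.range m, (κ + i) / ((i : ℝ) + 1)) ^ 2 * (1 / (p : ℝ)) ^ m)

lemma mu_cont (x T : ℝ) : Continuous fun u => ‖mu x (1 / 2) T u‖ := Pool.Agent.Q273.LU.zs_cont (by norm_num) x T

lemma input (ε : ℝ) (hε : 0 < ε) : ∃ δ : ℝ, 0 < δ ∧ ∀ x : ℝ, ∀ᶠ T : ℝ in atTop, ∀ β : ℝ, 0 < β → |β - 2| ≤ δ →
      |(∫ u in (0:ℝ)..1, ‖mu x (1 / 2) T u‖ ^ β) / Real.exp (β ^ 2 / 4 * Real.log (Real.log T)) - 1| ≤ ε := by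
  obtain ⟨δ, h0, _, h2⟩ := Pool.Agent.TH806.mom_shift hε
  refine ⟨δ, h0, fun x => ?_⟩
  filter_upwards [h2 x, Real.tendsto_log_atTop.eventually_ge_atTop 1, eventually_gt_atTop 0] with T h3 hL hT β _ hβ
  have h5 := h3 β hβ
  have e1 : Real.exp (β ^ 2 / 4 * Real.log (Real.log T)) = Real.log T ^ (β ^ 2 / 4) := by
    rw [Real.rpow_def_of_pos (by linarith), mul_comm]
  have e2 : ∫ u in (0:ℝ)..1, ‖mu x (1 / 2) T u‖ ^ β =
      T⁻¹ * ∫ t in x..(T + x), Pool.Agent.TH806.Xz t ^ β := by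
    have h5 := intervalIntegral.integral_comp_mul_add (a := (0:ℝ)) (b := 1)
      (fun t => Pool.Agent.TH806.Xz t ^ β) hT.ne' x
    rw [mul_zero, zero_add, mul_one, smul_eq_mul] at h5
    rw [← h5]
    refine intervalIntegral.integral_congr fun u _ => ?_
    unfold Pool.Agent.TH806.Xz Pool.Agent.H306R2.SM.cl mu
    congr 3
    push_cast
    ring
  rw [e1, e2]
  set W := ∫ t in x..(T + x), Pool.Agent.TH806.Xz t ^ β
  set P := Real.log T ^ (β ^ 2 / 4) with hP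
  have hP0 : 0 < P := Real.rpow_pos_of_pos (by linarith) _
  have hTP0 : 0 < T * P := by positivity
  have e3 : T⁻¹ * W / P - 1 = (W - T * P) / (T * P) := by field_simp
  rw [e3, abs_div, abs_of_pos hTP0, div_le_iff₀ hTP0]
  exact h5

/-- on the critical line -/
theorem on_line (ε : ℝ) (hε : 0 < ε) (m : ℕ) :
    ∃ δ : ℝ, 0 < δ ∧ ∀ x : ℝ, ∀ᶠ T : ℝ in atTop, ∀ β : ℝ, |β - 2| ≤ δ →
      (∀ y : ℝ, |(∫ u in {u : ℝ | u ∈ Ioc (0:ℝ) 1 ∧
          ‖mu x (1 / 2) T u‖ ≤ Real.exp (β / 2 * Real.log (Real.log T) + y * √(Real.log (Real.log T) / 2))},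
            ‖mu x (1 / 2) T u‖ ^ β) /
          Real.exp (β ^ 2 / 4 * Real.log (Real.log T)) - (gaussianReal 0 1).real (Iic y)| ≤ ε) ∧
      |(∫ u in (0:ℝ)..1, ‖mu x (1 / 2) T u‖ ^ β *
          ((Real.log ‖mu x (1 / 2) T u‖ - β / 2 * Real.log (Real.log T)) / √(Real.log (Real.log T) / 2)) ^ m) /
          Real.exp (β ^ 2 / 4 * Real.log (Real.log T)) - ∫ z, z ^ m ∂(gaussianReal 0 1)| ≤ ε := by
  obtain ⟨δ₁, h1, g1⟩ := Pool.Agent.Q273.WL.unif_y (F := fun x T u => ‖mu x (1 / 2) T u‖) mu_cont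
    (fun _ _ _ => norm_nonneg _) input hε
  obtain ⟨δ₂, h2, g2⟩ := Pool.Agent.Q273.WL.unif_mom (F := fun x T u => ‖mu x (1 / 2) T u‖) mu_cont
    (fun _ _ _ => norm_nonneg _) (by norm_num) input m hε
  refine ⟨min 1 (min δ₁ δ₂), lt_min one_pos (lt_min h1 h2), fun x => ?_⟩
  filter_upwards [g1 x, g2 x] with T k1 k2 β hβ
  have hβ0 : 0 < β := by
    have := (abs_le.mp (hβ.trans (min_le_left _ _))).1
    linarith
  exact ⟨fun y => k1 β hβ0 (hβ.trans ((min_le_right _ _).trans (min_le_left _ _))) y,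
    k2 β hβ0 (hβ.trans ((min_le_right _ _).trans (min_le_right _ _)))⟩

/-- **The law of `log |ζ|` under the weight `|ζ| ^ β`, on and near the critical line.** -/
theorem _root_.Pool.Agent.Results.MP_6a632e_nt.WeightedLawNearLine.result :
    -- near the critical line, every weight
    (∀ β : ℝ, 0 < β → ∀ (x : ℝ) (b δ : ℝ → ℝ), Tendsto b atTop (𝓝 β) → (∀ᶠ T in atTop, b T ≤ 4) →
      Tendsto δ atTop (𝓝 0) → Tendsto (fun T => δ T * Real.log T) atTop atTop →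
      -- the constant
      0 < aa (β / 2) ∧
      -- the moments
      Tendsto (fun T => (2 * δ T) ^ (b T ^ 2 / 4) * ∫ u in (0:ℝ)..1, ‖mu x (1 / 2 + δ T) T u‖ ^ b T) atTop
        (𝓝 (aa (β / 2))) ∧
      -- the law under the weight `|ζ| ^ b`
      (∀ y : ℝ, Tendsto (fun T => (2 * δ T) ^ (b T ^ 2 / 4) *
        ∫ u in {u : ℝ | u ∈ Ioc (0:ℝ) 1 ∧ ‖mu x (1 / 2 + δ T) T u‖ ≤
          Real.exp (b T / 2 * Lam (δ T) + y * √(Lam (δ T) / 2))}, ‖mu x (1 / 2 + δ T) T u‖ ^ b T) atTop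
        (𝓝 (aa (β / 2) * (gaussianReal 0 1).real (Iic y)))) ∧
      -- the moments of the normalised logarithm under the weight `|ζ| ^ b`
      (β < 4 → ∀ m : ℕ, Tendsto (fun T => (2 * δ T) ^ (b T ^ 2 / 4) *
        ∫ u in (0:ℝ)..1, ‖mu x (1 / 2 + δ T) T u‖ ^ b T *
        ((Real.log ‖mu x (1 / 2 + δ T) T u‖ - b T / 2 * Lam (δ T)) / √(Lam (δ T) / 2)) ^ m) atTop
        (𝓝 (aa (β / 2) * ∫ z, z ^ m ∂(gaussianReal 0 1)))) ∧
      -- the measure of the large values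
      (∀ y : ℝ, Tendsto (fun T => (Real.log (volume.real {u : ℝ | u ∈ Ioc (0:ℝ) 1 ∧
        Real.exp (β / 2 * Lam (δ T) + y * √(Lam (δ T) / 2)) ≤ ‖mu x (1 / 2 + δ T) T u‖}) +
        β ^ 2 / 4 * Lam (δ T)) / √(Lam (δ T) / 2)) atTop (𝓝 (-(β * y)))) ∧
      -- the part of the moment of order `k > β` that comes from the smaller values
      (∀ k y : ℝ, β < k → Tendsto (fun T => (Real.log (∫ u in {u : ℝ | u ∈ Ioc (0:ℝ) 1 ∧
        ‖mu x (1 / 2 + δ T) T u‖ ≤ Real.exp (β / 2 * Lam (δ T) + y * √(Lam (δ T) / 2))},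
          ‖mu x (1 / 2 + δ T) T u‖ ^ k) - (k * β / 2 - β ^ 2 / 4) * Lam (δ T)) / √(Lam (δ T) / 2)) atTop
        (𝓝 ((k - β) * y))) ∧
      -- the part of the moment of order `k < β` that comes from the larger values
      (∀ k y : ℝ, k < β → Tendsto (fun T => (Real.log (∫ u in {u : ℝ | u ∈ Ioc (0:ℝ) 1 ∧
        Real.exp (β / 2 * Lam (δ T) + y * √(Lam (δ T) / 2)) ≤ ‖mu x (1 / 2 + δ T) T u‖},
          ‖mu x (1 / 2 + δ T) T u‖ ^ k) - (k * β / 2 - β ^ 2 / 4) * Lam (δ T)) / √(Lam (δ T) / 2)) atTop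
        (𝓝 ((k - β) * y)))) ∧
    -- on the critical line, the weights close to `2`
    (∀ ε : ℝ, 0 < ε → ∀ m : ℕ, ∃ δ : ℝ, 0 < δ ∧ ∀ x : ℝ, ∀ᶠ T : ℝ in atTop, ∀ β : ℝ, |β - 2| ≤ δ →
      (∀ y : ℝ, |(∫ u in {u : ℝ | u ∈ Ioc (0:ℝ) 1 ∧
          ‖mu x (1 / 2) T u‖ ≤ Real.exp (β / 2 * Real.log (Real.log T) + y * √(Real.log (Real.log T) / 2))},
            ‖mu x (1 / 2) T u‖ ^ β) /
          Real.exp (β ^ 2 / 4 * Real.log (Real.log T)) - (gaussianReal 0 1).real (Iic y)| ≤ ε) ∧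
      |(∫ u in (0:ℝ)..1, ‖mu x (1 / 2) T u‖ ^ β *
          ((Real.log ‖mu x (1 / 2) T u‖ - β / 2 * Real.log (Real.log T)) / √(Real.log (Real.log T) / 2)) ^ m) /
          Real.exp (β ^ 2 / 4 * Real.log (Real.log T)) - ∫ z, z ^ m ∂(gaussianReal 0 1)| ≤ ε) := by
  refine ⟨fun β hβ x b δ hb hb4 hδ hδT => ?_, fun ε hε m => on_line ε hε m⟩
  have hβ4 : β ≤ 4 := le_of_tendsto hb hb4
  have hlow := fun (k y : ℝ) (hk : k < β) => Pool.Agent.Q273.LU.low_near hβ x hδ hδT hβ4 hk y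
  refine ⟨Pool.Agent.H306R2.aF_pos (by positivity), Pool.Agent.Q273.LU.mom_joint hβ x hb hb4 hδ hδT,
    Pool.Agent.Q273.LU.law_near hβ x hb hb4 hδ hδT, fun h m => Pool.Agent.Q273.LU.mom_near hβ x hb hδ hδT h m,
    fun y => ?_, fun k y hk => Pool.Agent.Q273.LU.high_near hβ x hδ hδT hβ4 hk y, hlow⟩
  have h := hlow 0 y hβ
  have e1 : (0 - β) * y = -(β * y) := by ring
  rw [e1] at h
  refine h.congr fun T => ?_
  have e2 : (0 * β / 2 - β ^ 2 / 4) * Pool.Agent.Q273.LU.Lm (δ T) = -(β ^ 2 / 4 * Lam (δ T)) := by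
    unfold Pool.Agent.Q273.LU.Lm Lam
    ring
  rw [e2, sub_neg_eq_add]
  simp only [Real.rpow_zero, integral_const, smul_eq_mul, mul_one, measureReal_restrict_apply_univ]
  rfl

end Pool.Agent.Results.MP_6a632e_nt.WeightedLawNearLine
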