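import Pool.Agent.Q97.RE.Ct

/-!
# Zeros of zeta near the points where its moments are concentrated

For every real `β > 0` let `E` be the mean with respect to the probability measure with density
proportional to `|ζ(1/2 + it)|^β exp(-((t-T)/U)²)`, `1 ≤ U ≤ T / log T` arbitrary. Let `n(t, r)` be the
number of zeros of zeta in the closed disc with centre `1/2 + it` and radius `r`, with
multiplicities, and `ν(t, r) = ∫_0^r n(t, x) dx/x` the logarithmic counting function. Then

* `E exp(β ν(t, A / log T)) ≤ exp(β A / π) + o(1)` and `E ν(t, A / log T) ≤ A / π + o(1)`,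
* `E exp(λ n(t, R / log T)) ≤ exp((β R / π) exp(λ/β)) + o(1)`,
* `P (n(t, R / log T) ≥ N) ≤ (e R / (π N))^(β N) + o(1)` for `N ≥ R / π`, and
  `E n(t, R / log T) ≤ (e / π) R + o(1)`,

uniformly in `U`. Here `A / π` is the value which `ν(t, A / log T)` would have for zeros on the line with the
mean density `log T / (2 π)`: near the points which carry the moment there are on average not more zeros
than near a typical point.

Ingredients: Jensen's formula in all discs of radius `r = A / log T` with centre on the line and the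
convexity of the exponential function with the weight `u(z) = β log T (1/2 - Re z)⁺`, which give
`|F(c)|^β exp(β ν(c, r) - β A / π) ≤` the mean of `|F|^β exp(-u)` over the circle, for an entire function
`F`; Gabriel's convexity theorem for `∫ |F(σ + it)|^β dt` at real `β` and the functional equation, which give
`exp(-u(σ)) ∫ |F(σ + it)|^β dt ≤ (1 + o(1)) ∫ |F(1/2 + it)|^β dt` for `|σ - 1/2| ≤ A / log T`, uniformly
in the window.
-/

set_option autoImplicit false

open MeasureTheory Filter Metric Set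
open scoped ENNReal

namespace Pool.Agent.Results.MP_6a632e_nt.ZerosUnderTheMomentMeasure

noncomputable section

/-- the multiplicity of a zero of zeta (and `0` at all other points) -/
def mult (ρ : ℂ) : ℕ := analyticOrderNatAt riemannZeta ρ

/-- `n(t, r)`: the number of zeros of zeta in the closed disc with centre `1/2 + it` and radius `r`,
with multiplicities -/
def count (t r : ℝ) : ℕ := ∑ᶠ (ρ : ℂ) (_ : ρ ∈ closedBall (1 / 2 + t * Complex.I : ℂ) r), mult ρ

/-- the logarithmic counting function: the sum of `log (r / |ρ - (1/2 + it)|)` over these zeros -/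
def logcount (t r : ℝ) : ℝ :=
  ∑ᶠ (ρ : ℂ) (_ : ρ ∈ closedBall (1 / 2 + t * Complex.I : ℂ) r),
    (mult ρ : ℝ) * Real.log (r / ‖(1 / 2 + t * Complex.I : ℂ) - ρ‖)

/-- `|ζ(1/2 + it)|^β` times the Gaussian window of width `U` at `T` -/
def dens (β T U t : ℝ) : ℝ :=
  ‖riemannZeta (1 / 2 + t * Complex.I)‖ ^ β * Real.exp (-((t - T) / U) ^ 2)

/-- the moment -/
def moment (β T U : ℝ) : ℝ := ∫ t, dens β T U t

/-- the mean of a nonnegative function with respect to the moment measure -/
def mean (β T U : ℝ) (g : ℝ → ℝ) : ℝ≥0∞ :=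
  (∫⁻ t, ENNReal.ofReal (g t * dens β T U t)) / ENNReal.ofReal (moment β T U)

theorem pt_eq (t : ℝ) : (1 / 2 + t * Complex.I : ℂ) = ((1 / 2 : ℝ) : ℂ) + t * Complex.I := by
  norm_num

theorem count_eq (t r : ℝ) : count t r = Q97.RB.count (((1 / 2 : ℝ) : ℂ) + t * Complex.I) r := by
  unfold count
  rw [pt_eq]
  rfl

theorem logcount_eq (t r : ℝ) :
    logcount t r = Q97.RB.logcount (((1 / 2 : ℝ) : ℂ) + t * Complex.I) r := by
  unfold logcount
  rw [pt_eq]
  rfl

theorem dens_eq (β T U t : ℝ) :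
    dens β T U t = ‖riemannZeta (((1 / 2 : ℝ) : ℂ) + t * Complex.I)‖ ^ β * Q97.MM.wt T U t := by
  unfold dens
  rw [pt_eq]
  rfl

theorem moment_eq (β T U : ℝ) : moment β T U = Q97.RB.MB β T U (1 / 2) := by
  unfold moment Q97.RB.MB
  simp only [dens_eq]

theorem mean_le {β T U K : ℝ} {g : ℝ → ℝ} (hK : 0 ≤ K)
    (h : ∫⁻ t, ENNReal.ofReal (g t * dens β T U t) ≤ ENNReal.ofReal (K * moment β T U)) :
    mean β T U g ≤ ENNReal.ofReal K := by
  unfold mean
  rw [ENNReal.ofReal_mul hK] at h
  exact ENNReal.div_le_of_le_mul h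

theorem result (β : ℝ) (hβ : 0 < β) :
    (∀ᶠ T : ℝ in atTop, ∀ U : ℝ, 1 ≤ U → U ≤ T / Real.log T →
      Integrable (dens β T U) ∧ 0 < moment β T U) ∧
    (∀ A : ℝ, 0 < A → ∀ ε : ℝ, 0 < ε →
      ∀ᶠ T : ℝ in atTop, ∀ U : ℝ, 1 ≤ U → U ≤ T / Real.log T →
        mean β T U (fun t => Real.exp (β * logcount t (A / Real.log T))) ≤
          ENNReal.ofReal (Real.exp (β * A / Real.pi) + ε) ∧
        mean β T U (fun t => logcount t (A / Real.log T)) ≤ ENNReal.ofReal (A / Real.pi + ε)) ∧
    (∀ R : ℝ, 0 < R → ∀ lam : ℝ, 0 ≤ lam → ∀ ε : ℝ, 0 < ε →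
      ∀ᶠ T : ℝ in atTop, ∀ U : ℝ, 1 ≤ U → U ≤ T / Real.log T →
        mean β T U (fun t => Real.exp (lam * count t (R / Real.log T))) ≤
          ENNReal.ofReal (Real.exp (β * (R * Real.exp (lam / β)) / Real.pi) + ε)) ∧
    (∀ R : ℝ, 0 < R → ∀ ε : ℝ, 0 < ε →
      ∀ᶠ T : ℝ in atTop, ∀ U : ℝ, 1 ≤ U → U ≤ T / Real.log T →
        mean β T U (fun t => count t (R / Real.log T)) ≤
          ENNReal.ofReal (Real.exp 1 / Real.pi * R + ε)) ∧
    (∀ R : ℝ, 0 < R → ∀ N : ℕ, R ≤ Real.pi * N → ∀ ε : ℝ, 0 < ε →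
      ∀ᶠ T : ℝ in atTop, ∀ U : ℝ, 1 ≤ U → U ≤ T / Real.log T →
        mean β T U ({t | N ≤ count t (R / Real.log T)}.indicator 1) ≤
          ENNReal.ofReal ((Real.exp 1 * R / (Real.pi * N)) ^ (β * N) + ε)) := by
  have hπ := Real.pi_pos
  have hpos : ∀ᶠ T : ℝ in atTop, ∀ U : ℝ, 1 ≤ U → U ≤ T / Real.log T →
      Integrable (dens β T U) ∧ 0 < moment β T U := by
    filter_upwards [Q97.RB.tilted hβ one_pos one_pos, eventually_ge_atTop 3] with T h1 hT U hU1 hU2
    have h : Q97.MM.Adm T U := ⟨hT, hU1, hU2⟩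
    have hT0 : 0 < T := by linarith
    constructor
    · have h2 := Q97.RB.MB_integrable hβ (T := T) (U := U) (x := 1 / 2) (by linarith) hT0.le
        (hU2.trans (div_le_self hT0.le h.log)) (by norm_num) (by norm_num)
      refine h2.congr (Eventually.of_forall fun t => ?_)
      exact (dens_eq β T U t).symm
    · rw [moment_eq]
      exact (h1 U h).1
  refine ⟨hpos, fun A hA ε hε => ?_, fun R hR lam hlam ε hε => ?_, fun R hR ε hε => ?_,
    fun R hR N hN ε hε => ?_⟩
  · filter_upwards [Q97.RE.tilted_sharp hβ hA hε, Q97.RE.mean_log' hβ hA hε,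
      eventually_ge_atTop 3] with T h1 h2 hT U hU1 hU2
    have h : Q97.MM.Adm T U := ⟨hT, hU1, hU2⟩
    constructor
    · refine mean_le (by positivity) ?_
      rw [moment_eq]
      simp only [logcount_eq, dens_eq]
      exact (h1 U h).2
    · refine mean_le (by positivity) ?_
      rw [moment_eq]
      simp only [logcount_eq, dens_eq]
      exact h2 U h
  · filter_upwards [Q97.RE.exp_sharp hβ hR hlam hε,
      eventually_ge_atTop 3] with T h1 hT U hU1 hU2
    have h : Q97.MM.Adm T U := ⟨hT, hU1, hU2⟩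
    refine mean_le (by positivity) ?_
    rw [moment_eq]
    simp only [count_eq, dens_eq]
    exact h1 U h
  · filter_upwards [Q97.RE.mean_count' hβ hR hε,
      eventually_ge_atTop 3] with T h1 hT U hU1 hU2
    have h : Q97.MM.Adm T U := ⟨hT, hU1, hU2⟩
    refine mean_le (by positivity) ?_
    rw [moment_eq]
    simp only [count_eq, dens_eq]
    exact h1 U h
  · filter_upwards [Q97.RE.tail_sharp hβ hR hN hε,
      eventually_ge_atTop 3] with T h1 hT U hU1 hU2
    have h : Q97.MM.Adm T U := ⟨hT, hU1, hU2⟩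
    refine mean_le (by positivity) ?_
    rw [moment_eq]
    refine le_trans (le_of_eq ?_) (h1 U h)
    refine lintegral_congr fun t => ?_
    simp only [count_eq, dens_eq]
    by_cases ht : t ∈ {t : ℝ | N ≤ Q97.RB.count (((1 / 2 : ℝ) : ℂ) + t * Complex.I)
        (R / Real.log T)}
    · rw [indicator_of_mem ht, indicator_of_mem ht, Pi.one_apply, one_mul]
    · rw [indicator_of_notMem ht, indicator_of_notMem ht, zero_mul, ENNReal.ofReal_zero]

end

end Pool.Agent.Results.MP_6a632e_nt.ZerosUnderTheMomentMeasure
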